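import Pool.Agent.P.MP_509d99_co.Main
import Pool.Agent.P.MP_509d99_co.Fn

set_option autoImplicit false

namespace Pool.Agent.Results.MP_509d99_co.Classification

/-- A finite graph with `p ≤ q` (`p` vertices, `q` edges) is harmonious if some injective labelling
of the vertices by `ZMod q` gives pairwise distinct edge sums. -/
def Harmonious {V : Type} (G : SimpleGraph V) : Prop :=
  Nat.card V ≤ G.edgeSet.ncard ∧ ∃ f : V → ZMod G.edgeSet.ncard, Function.Injective f ∧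
    ∀ u v u' v', G.Adj u v → G.Adj u' v' → f u + f v = f u' + f v' → s(u, v) = s(u', v')

/-- The disjoint union of the cycles `C_(n i)`. -/
def cycles {k : ℕ} (n : Fin k → ℕ) : SimpleGraph (Σ i, Fin (n i)) where
  Adj u v := ∃ (i : Fin k) (a b : Fin (n i)),
    u = ⟨i, a⟩ ∧ v = ⟨i, b⟩ ∧ (SimpleGraph.cycleGraph (n i)).Adj a b
  symm := ⟨fun _ _ ⟨i, a, b, h1, h2, h3⟩ => ⟨i, b, a, h2, h1, h3.symm⟩⟩
  loopless := ⟨fun _ ⟨_, _, _, h1, h2, h3⟩ => h3.ne (eq_of_heq (Sigma.mk.inj (h1.symm.trans h2)).2)⟩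

open Pool.Agent.P.MP_509d99_co

theorem adj_iff {k : ℕ} {n : Fin k → ℕ} (hn : ∀ i, 3 ≤ n i) (u v : Σ i, Fin (n i)) :
    (cycles n).Adj u v ↔ v = nx n u ∨ u = nx n v := by
  constructor
  · rintro ⟨i, a, b, rfl, rfl, h⟩
    rcases (adj_rot (hn i) a b).1 h with rfl | rfl
    · exact Or.inl rfl
    · exact Or.inr rfl
  · rintro (rfl | rfl)
    · exact ⟨u.1, u.2, _, rfl, rfl, (adj_rot (hn _) _ _).2 (Or.inl rfl)⟩
    · exact ⟨v.1, _, v.2, rfl, rfl, (adj_rot (hn _) _ _).2 (Or.inr rfl)⟩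

theorem edge_inj {k : ℕ} {n : Fin k → ℕ} (hn : ∀ i, 3 ≤ n i) :
    Function.Injective fun v => s(v, nx n v) := by
  intro u v e
  rcases Sym2.eq_iff.1 e with h | h
  · exact h.1
  · exact absurd (h.1 ▸ h.2) (nx_nx hn v)

theorem edge_card {k : ℕ} {n : Fin k → ℕ} (hn : ∀ i, 3 ≤ n i) :
    (cycles n).edgeSet.ncard = ∑ i, n i := by
  have : (cycles n).edgeSet = Set.range fun v => s(v, nx n v) := by
    ext e
    induction e using Sym2.ind with
    | _ u v =>
      rw [SimpleGraph.mem_edgeSet, adj_iff hn]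
      constructor
      · rintro (rfl | rfl)
        · exact ⟨u, rfl⟩
        · exact ⟨v, Sym2.eq_swap⟩
      · rintro ⟨w, e⟩
        rcases Sym2.eq_iff.1 e with ⟨rfl, rfl⟩ | ⟨rfl, rfl⟩
        · exact Or.inl rfl
        · exact Or.inr rfl
  rw [this, Set.ncard_range_of_injective (edge_inj hn)]
  simp

theorem harm_iff {k : ℕ} {n : Fin k → ℕ} (hn : ∀ i, 3 ≤ n i) : Harmonious (cycles n) ↔
    ∃ f : (Σ i, Fin (n i)) → ZMod (∑ i, n i), Function.Injective f ∧
      Function.Injective fun v => f v + f (nx n v) := by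
  rw [Harmonious, edge_card hn, and_iff_right (by simp)]
  refine exists_congr fun f => and_congr_right fun _ => ⟨fun h u v e => edge_inj hn
    (h _ _ _ _ ((adj_iff hn _ _).2 (Or.inl rfl)) ((adj_iff hn _ _).2 (Or.inl rfl)) e), ?_⟩
  intro h u v u' v' h1 h2 e
  rcases (adj_iff hn _ _).1 h1 with rfl | rfl <;> rcases (adj_iff hn _ _).1 h2 with rfl | rfl
  · rw [h e]
  · rw [h (e.trans (add_comm _ _)), Sym2.eq_swap]
  · rw [h ((add_comm _ _).trans e), Sym2.eq_swap]
  · rw [h ((add_comm _ _).trans (e.trans (add_comm _ _)))]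

/-- The disjoint union of cycles of lengths `n 0, …, n (k-1)` is harmonious exactly when its order is
odd and the multiset of lengths is none of `{3,4}`, `{3,3,5}`, `{3,3,3,4}`. -/
theorem result (k : ℕ) (hk : 1 ≤ k) (n : Fin k → ℕ) (hn : ∀ i, 3 ≤ n i) :
    Harmonious (cycles n) ↔ Odd (∑ i, n i) ∧ Finset.univ.val.map n ≠ {3, 4} ∧
      Finset.univ.val.map n ≠ {3, 3, 5} ∧ Finset.univ.val.map n ≠ {3, 3, 3, 4} := by
  have h3 : ∀ m ∈ List.ofFn n, 3 ≤ m := by simpa using hn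
  have h0 : ∑ i, n i ≠ 0 := by
    have := Finset.single_le_sum (f := n) (fun i _ => Nat.zero_le _) (Finset.mem_univ ⟨0, hk⟩)
    have := hn ⟨0, hk⟩
    omega
  rw [harm_iff hn, Nat.odd_iff, Fin.univ_val_map]
  have key := HL_iff _ h3
  rw [List.sum_ofFn, HL_fun] at key
  exact ⟨fun h => have ho := h.elim fun f hf => odd_of_fun h0 (by simp) _ (nx_inj n) f hf.1 hf.2
    ⟨ho, (key ho).1 h⟩, fun h => (key h.1).2 h.2⟩

end Pool.Agent.Results.MP_509d99_co.Classification
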